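import Mathlib
import Pool.Agent.H153R4.Chg
set_option autoImplicit false

/-!
# The restriction conjecture for the paraboloid holds on average over anisotropic dilates

For bounded `f` on the cube `[-1,1]^(m+1)` and `l ∈ [1,L]^m` let
`f_l(ξ) = f(ξ_0, l_1 ξ_1, ..., l_m ξ_m)`, extended by zero. In every dimension `d = m + 2` and in
the full range `q > 2d/(d-1)` of the conjecture, `∫ ‖E f_l‖_q^q dl ≤ C ‖f‖_∞^q`.
More generally this is proved for averages with respect to every measure `μ` on the parameter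
space with `μ(cube of side r) ≤ A r^α` and `q > 2 + 2/(1+α)`, and for all surfaces
`τ = ∑ c_j ξ_j^2` with non-zero coefficients.
-/

namespace Pool.Agent.Results.MP_b7167f_an.AveragedDilates

open MeasureTheory Set Complex
open scoped ENNReal NNReal FourierTransform

/-- The extension operator of the surface `τ = ∑ c_j ξ_j^2` over the cube `[-1,1]^n`:
`E_c f(x,t) = ∫_{[-1,1]^n} f(ξ) exp(2πi(ξ·x + t ∑ c_j ξ_j^2)) dξ`. For `c = (1,...,1)` it is the
extension operator of the paraboloid. -/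
noncomputable def ext {n : ℕ} (c : Fin n → ℝ) (f : (Fin n → ℝ) → ℂ) (y : (Fin n → ℝ) × ℝ) : ℂ :=
  ∫ ξ in Icc (-1) 1, f ξ *
    cexp (2 * Real.pi * I * ((∑ j, ξ j * y.1 j + (∑ j, c j * ξ j ^ 2) * y.2 : ℝ) : ℂ))

/-- The dilate `f_l(ξ) = f(ξ_0, l_1 ξ_1, ..., l_m ξ_m)` if this point lies in the cube
`[-1,1]^(m+1)`, and `0` otherwise. -/
noncomputable def dilate {m : ℕ} (l : Fin m → ℝ) (f : (Fin (m + 1) → ℝ) → ℂ)
    (ξ : Fin (m + 1) → ℝ) : ℂ :=
  (Icc (-1) 1).indicator f (Fin.cons (ξ 0) fun j => l j * ξ j.succ)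

open Pool.Agent.H153R4

lemma cons_eq {m : ℕ} (l : Fin m → ℝ) (ξ : Fin (m + 1) → ℝ) :
    (Fin.cons (ξ 0) fun j => l j * ξ j.succ : Fin (m + 1) → ℝ) = dv l * ξ := by
  ext j
  refine Fin.cases ?_ (fun i => ?_) j
  · simp [dv]
  · simp [dv]

/-- a bounded everywhere measurable representative -/
lemma exists_rep {n : ℕ} (f : (Fin n → ℝ) → ℂ)
    (hf : MemLp f ∞ (volume.restrict (Icc (-1) 1))) :
    ∃ g : (Fin n → ℝ) → ℂ, Measurable g ∧
      (∀ ξ, ‖g ξ‖ ≤ (eLpNorm f ∞ (volume.restrict (Icc (-1) 1))).toReal) ∧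
      (∀ ξ, ξ ∉ Icc (-1 : Fin n → ℝ) 1 → g ξ = 0) ∧
      (Icc (-1) 1).indicator f =ᵐ[volume] g := by
  set M := (eLpNorm f ∞ (volume.restrict (Icc (-1) 1))).toReal with hM
  obtain ⟨f', hf'm, hf'⟩ := hf.1
  have hbd : ∀ᵐ ξ ∂(volume.restrict (Icc (-1 : Fin n → ℝ) 1)), ‖f ξ‖ ≤ M := by
    have h1 := ae_le_eLpNormEssSup (f := f) (μ := volume.restrict (Icc (-1 : Fin n → ℝ) 1))
    filter_upwards [h1] with ξ hξ
    rw [hM, eLpNorm_exponent_top, ← toReal_enorm]
    exact ENNReal.toReal_mono (by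
      have := hf.2
      rw [eLpNorm_exponent_top] at this
      exact this.ne) hξ
  set S : Set (Fin n → ℝ) := Icc (-1) 1 ∩ {ξ | ‖f' ξ‖ ≤ M} with hS
  have hSm : MeasurableSet S :=
    measurableSet_Icc.inter (measurableSet_le hf'm.measurable.norm measurable_const)
  refine ⟨S.indicator f', hf'm.measurable.indicator hSm, ?_, ?_, ?_⟩
  · intro ξ
    by_cases h : ξ ∈ S
    · rw [indicator_of_mem h]
      exact h.2
    · rw [indicator_of_notMem h, norm_zero]
      exact ENNReal.toReal_nonneg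
  · intro ξ hξ
    exact indicator_of_notMem (fun h => hξ h.1) _
  · have h2 : ∀ᵐ ξ ∂(volume.restrict (Icc (-1 : Fin n → ℝ) 1)), f ξ = S.indicator f' ξ := by
      filter_upwards [hf', hbd, ae_restrict_mem measurableSet_Icc] with ξ h1 h2 h3
      rw [indicator_of_mem (show ξ ∈ S from ⟨h3, by rw [mem_ofPred_eq, ← h1]; exact h2⟩), h1]
    rw [ae_restrict_iff' measurableSet_Icc] at h2
    filter_upwards [h2] with ξ h3
    by_cases h : ξ ∈ Icc (-1 : Fin n → ℝ) 1
    · rw [indicator_of_mem h, h3 h]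
    · rw [indicator_of_notMem h, indicator_of_notMem (fun h' => h h'.1)]

lemma ext_dil {m : ℕ} (c : Fin (m + 1) → ℝ) (l : Fin m → ℝ) (hl : ∀ j, 1 ≤ l j)
    (f g : (Fin (m + 1) → ℝ) → ℂ) (hg : ∀ ξ, ξ ∉ Icc (-1 : Fin (m + 1) → ℝ) 1 → g ξ = 0)
    (hfg : (Icc (-1) 1).indicator f =ᵐ[volume] g) (y : (Fin (m + 1) → ℝ) × ℝ) :
    ext c (dilate l f) y = ext0 c (fun ξ => g (dv l * ξ)) y := by
  have hd : ∀ j, 1 ≤ dv l j := by
    intro j
    refine Fin.cases ?_ (fun i => ?_) j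
    · simp [dv]
    · simpa [dv] using hl i
  obtain ⟨κ, hκ0, hκ1, hκ⟩ := dil_map (dv l) hd
  have h1 : ∀ᵐ ξ : Fin (m + 1) → ℝ, dilate l f ξ = g (dv l * ξ) := by
    have hq : Measure.QuasiMeasurePreserving (fun ξ : Fin (m + 1) → ℝ => dv l * ξ)
        volume volume := by
      refine ⟨by fun_prop, ?_⟩
      rw [hκ]
      exact Measure.smul_absolutelyContinuous
    have h2 := hq.ae hfg
    filter_upwards [h2] with ξ h3
    unfold dilate
    rw [cons_eq, h3]
  unfold ext ext0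
  rw [← integral_indicator measurableSet_Icc]
  apply integral_congr_ae
  filter_upwards [h1] with ξ h3
  by_cases h : ξ ∈ Icc (-1 : Fin (m + 1) → ℝ) 1
  · rw [indicator_of_mem h, h3]
    rfl
  · rw [indicator_of_notMem h, hg, zero_mul]
    intro h4
    apply h
    refine ⟨fun j => ?_, fun j => ?_⟩
    · have a1 := h4.1 j
      have a2 := hd j
      simp only [Pi.mul_apply, Pi.neg_apply, Pi.one_apply] at a1 ⊢
      by_contra hc
      push Not at hc
      nlinarith
    · have a1 := h4.2 j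
      have a2 := hd j
      simp only [Pi.mul_apply, Pi.one_apply] at a1 ⊢
      by_contra hc
      push Not at hc
      nlinarith

/-- Let `m ≥ 0`, `d = m + 2`, `c ∈ ℝ^(m+1)` with non-zero entries, `α > 0`, `q > 2 + 2/(1+α)`.
There is `C` such that for every measure `μ` on `ℝ^m` with `μ(a + [0,r]^m) ≤ A r^α` for all `a`
and all `0 < r ≤ 1`, and for every `f ∈ L^∞([-1,1]^(m+1))`,
`∫_{[1,L]^m} ‖E_c f_l‖_{L^q(ℝ^d)}^q dμ(l) ≤ C ‖f‖_∞^q`. -/
theorem result (m : ℕ) (c : Fin (m + 1) → ℝ) (hc : ∀ j, c j ≠ 0) (α q L A : ℝ) (hα : 0 < α)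
    (hq : 2 + 2 / (1 + α) < q) :
    ∃ C : ℝ≥0, ∀ μ : Measure (Fin m → ℝ),
      (∀ (a : Fin m → ℝ) (r : ℝ), 0 < r → r ≤ 1 →
        μ (Icc a fun j => a j + r) ≤ ENNReal.ofReal (A * r ^ α)) →
      ∀ f : (Fin (m + 1) → ℝ) → ℂ, MemLp f ∞ (volume.restrict (Icc (-1) 1)) →
        ∫⁻ l in Icc (fun _ => 1) (fun _ => L),
            (∫⁻ y : (Fin (m + 1) → ℝ) × ℝ, ‖ext c (dilate l f) y‖ₑ ^ q) ∂μ ≤
          C * eLpNorm f ∞ (volume.restrict (Icc (-1) 1)) ^ q := by
  set b : Fin m → ℝ := fun j => c j.succ / c 0 with hb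
  have hb0 : ∀ j, b j ≠ 0 := fun j => div_ne_zero (hc _) (hc 0)
  set L' : ℝ := max L 1 with hL'
  have hL1 : 1 ≤ L' := le_max_right _ _
  set A' : ℝ := max A 0 with hA'
  have hA0 : 0 ≤ A' := le_max_right _ _
  set B : ℝ := ∑ j, |b j|⁻¹ with hB
  have hBj : ∀ j, |b j|⁻¹ ≤ B := fun j =>
    Finset.single_le_sum (f := fun j => |b j|⁻¹) (fun i _ => by positivity) (Finset.mem_univ j)
  set K : ℝ := max 1 (∑ j, |b j|) with hK
  have hK1 : 1 ≤ K := le_max_left _ _
  have hKj : ∀ j, |b j| ≤ K := fun j =>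
    (Finset.single_le_sum (f := fun j => |b j|) (fun i _ => abs_nonneg _)
      (Finset.mem_univ j)).trans (le_max_right _ _)
  set A2 : ℝ := (⌊2 * (B * L' ^ 4)⌋₊ + 1 : ℝ) ^ m * A' with hA2
  obtain ⟨C0, hC0, hmain⟩ := main_all m α q hα hq K A2 hK1 (by positivity)
  have hq1 : 1 ≤ q := by
    have : 0 < 2 / (1 + α) := by positivity
    linarith
  have hCf : ENNReal.ofReal |(c 0)⁻¹| * C0 ≠ ⊤ :=
    (ENNReal.mul_lt_top ENNReal.ofReal_lt_top hC0).ne
  refine ⟨(ENNReal.ofReal |(c 0)⁻¹| * C0).toNNReal, fun μ hμ f hf => ?_⟩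
  rw [ENNReal.coe_toNNReal hCf]
  have hμ' : Frost μ A' α := by
    intro a r h0 h1
    refine (hμ a r h0 h1).trans (ENNReal.ofReal_le_ofReal ?_)
    gcongr
    exact le_max_left _ _
  have := hμ'.locfin
  obtain ⟨g, hgm, hgb, hgs, hgf⟩ := exists_rep f hf
  set M : ℝ := (eLpNorm f ∞ (volume.restrict (Icc (-1) 1))).toReal with hM
  have hMe : eLpNorm f ∞ (volume.restrict (Icc (-1) 1)) = ENNReal.ofReal M := by
    rw [hM, ENNReal.ofReal_toReal hf.2.ne]
  have hG : BS M (fun z : E (m + 1) => g z.ofLp) := by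
    refine ⟨hgm.comp (emb_ofLp (m + 1)).measurable, fun z => hgb _, fun z hz => hgs _ ?_⟩
    intro h
    apply hz
    intro j
    rw [abs_le]
    exact ⟨h.1 j, h.2 j⟩
  have hGm : Measurable fun p : (Fin m → ℝ) × ℝ =>
      ∫⁻ x, ‖𝓕 (ch (sv (p.2, p.1)) (fun z : E (m + 1) => g z.ofLp)) x‖ₑ ^ q :=
    (G_meas q hG.meas).comp measurable_swap
  have hFm : Measurable (FF q (fun z : E (m + 1) => g z.ofLp)) := hGm.lintegral_prod_right'
  set ν : Measure (Fin m → ℝ) :=
    Measure.map (rho b) (μ.restrict (Icc (fun _ => 1) (fun _ => L'))) with hν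
  have hνF : Frost ν A2 α := hμ'.push L' B hL1 b hb0 hBj
  have hνl := hνF.locfin
  have hmain' := hmain ν hνF M _ hG
  rw [hMe]
  calc ∫⁻ l in Icc (fun _ => 1) (fun _ => L),
            (∫⁻ y : (Fin (m + 1) → ℝ) × ℝ, ‖ext c (dilate l f) y‖ₑ ^ q) ∂μ
      ≤ ∫⁻ l in Icc (fun _ => 1) (fun _ => L'),
            (∫⁻ y : (Fin (m + 1) → ℝ) × ℝ, ‖ext c (dilate l f) y‖ₑ ^ q) ∂μ := by
        apply lintegral_mono_set
        apply Icc_subset_Icc le_rfl
        intro j
        exact le_max_left _ _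
    _ ≤ ∫⁻ l in Icc (fun _ => 1) (fun _ => L'), ENNReal.ofReal |(c 0)⁻¹| *
          (Icc (fun _ => -K) (fun _ => K)).indicator
            (FF q (fun z : E (m + 1) => g z.ofLp)) (rho b l) ∂μ := by
        apply setLIntegral_mono' measurableSet_Icc
        intro l hl
        have hl1 : ∀ j, 1 ≤ l j := fun j => hl.1 j
        have hmem : rho b l ∈ Icc (fun _ : Fin m => -K) (fun _ => K) := by
          have : ∀ j, |rho b l j| ≤ K := by
            intro j
            unfold rho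
            rw [abs_div, abs_of_nonneg (by positivity : (0 : ℝ) ≤ l j ^ 2)]
            refine (div_le_self (abs_nonneg _) ?_).trans (hKj j)
            have := hl1 j
            nlinarith
          exact ⟨fun j => (abs_le.1 (this j)).1, fun j => (abs_le.1 (this j)).2⟩
        rw [indicator_of_mem hmem]
        simp only [ext_dil c l hl1 f g hgs hgf]
        exact key_le c (hc 0) q hq1 l hl1 hgm
    _ = ENNReal.ofReal |(c 0)⁻¹| * ∫⁻ l in Icc (fun _ => 1) (fun _ => L'),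
          (Icc (fun _ => -K) (fun _ => K)).indicator
            (FF q (fun z : E (m + 1) => g z.ofLp)) (rho b l) ∂μ := by
        rw [lintegral_const_mul]
        exact (hFm.indicator measurableSet_Icc).comp (rho_meas b)
    _ = ENNReal.ofReal |(c 0)⁻¹| * ∫⁻ x,
          (Icc (fun _ => -K) (fun _ => K)).indicator
            (FF q (fun z : E (m + 1) => g z.ofLp)) x ∂ν := by
        rw [hν, lintegral_map (hFm.indicator measurableSet_Icc) (rho_meas b)]
    _ = ENNReal.ofReal |(c 0)⁻¹| * II ν K q univ (fun z : E (m + 1) => g z.ofLp) := by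
        congr 1
        rw [lintegral_indicator measurableSet_Icc, II_eq ν K q univ hG.meas,
          Measure.restrict_univ]
        unfold FF HH
        rw [lintegral_lintegral_swap]
        exact hGm.aemeasurable
    _ ≤ ENNReal.ofReal |(c 0)⁻¹| * (C0 * ENNReal.ofReal M ^ q) := by gcongr
    _ = _ := by rw [mul_assoc]

end Pool.Agent.Results.MP_b7167f_an.AveragedDilates
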