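import Mathlib
import Pool.Agent.H728R3.SR.W
set_option autoImplicit false

/-!
# The restriction conjecture for products of functions of bounded variation in one variable

Let `d = m + 2 ≥ 3`, write `ξ = (ξ_0, ξ_1, ..., ξ_m) ∈ [-1,1]^{d-1}` and let
`f(ξ) = ∏_{j=1}^m f_j(ξ_0, ξ_j)`, where each `f_j` is measurable, bounded by `1` and, for each
`ξ_0`, of total variation at most `1` in `ξ_j`. Then `‖E f‖_q ≤ C(d, q)` in the full range
`q > 2d/(d-1)`. Nothing is assumed on the dependence on `ξ_0` beyond measurability.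
-/

namespace Pool.Agent.Results.MP_b7167f_an.BoundedVariationProducts

open MeasureTheory Set Complex
open scoped ENNReal NNReal

/-- The extension operator of the truncated paraboloid in `ℝ^(n+1)`:
`Ef(x,t) = ∫_{[-1,1]^n} f(ξ) exp(2πi(ξ·x + |ξ|² t)) dξ`. -/
noncomputable def ext {n : ℕ} (f : (Fin n → ℝ) → ℂ) (y : (Fin n → ℝ) × ℝ) : ℂ :=
  ∫ ξ in Icc (fun _ : Fin n => (-1 : ℝ)) (fun _ => 1),
    f ξ * cexp (2 * Real.pi * I * ((∑ j, ξ j * y.1 j + (∑ j, ξ j ^ 2) * y.2 : ℝ) : ℂ))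

/-- **The restriction conjecture for products of functions of bounded variation in one
variable.** Let `m ≥ 1`, `d = m + 2` and `q > 2d/(d-1)`. There is `C` such that for all measurable
`f_1, ..., f_m` with `|f_j| ≤ 1` on `[-1,1]²` and such that the total variation of
`v ↦ f_j(u, v)` on `[-1,1]` is at most `1` for every `u` in `[-1,1]`, the integral over `ℝ^d` of
`|E f|^q`, where `f(ξ) = ∏_j f_j(ξ_0, ξ_j)`, is at most `C`. -/
theorem result (m : ℕ) (hm : 1 ≤ m) (q : ℝ) (hq : 2 * ((m : ℝ) + 2) / (m + 1) < q) :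
    ∃ C : ℝ≥0, ∀ f : Fin m → ℝ × ℝ → ℂ, (∀ j, Measurable (f j)) →
      (∀ j, ∀ ξ ∈ Icc (-1 : ℝ) 1 ×ˢ Icc (-1 : ℝ) 1, ‖f j ξ‖ ≤ 1) →
      (∀ j, ∀ u ∈ Icc (-1 : ℝ) 1, eVariationOn (fun v => f j (u, v)) (Icc (-1 : ℝ) 1) ≤ 1) →
      ∫⁻ y : (Fin (m + 1) → ℝ) × ℝ,
        ‖ext (fun ξ => ∏ j : Fin m, f j (ξ 0, ξ j.succ)) y‖ₑ ^ q ≤ C := by
  obtain ⟨K, hK, hKK⟩ := Pool.Agent.H728R3.SR.bvm m hm q hq
  refine ⟨K.toNNReal, ?_⟩
  intro f hf hb hv
  rw [ENNReal.coe_toNNReal hK]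
  have hQ : MeasurableSet (Icc (-1 : ℝ) 1 ×ˢ Icc (-1 : ℝ) 1) :=
    measurableSet_Icc.prod measurableSet_Icc
  set g : Fin m → ℝ × ℝ → ℂ := fun j => (Icc (-1 : ℝ) 1 ×ˢ Icc (-1 : ℝ) 1).indicator (f j)
    with hg
  have hgm : ∀ j, Measurable (g j) := fun j => (hf j).indicator hQ
  have hgb : ∀ j x, ‖g j x‖ ≤ 1 := by
    intro j x
    rw [hg]
    simp only
    by_cases hx : x ∈ Icc (-1 : ℝ) 1 ×ˢ Icc (-1 : ℝ) 1
    · rw [indicator_of_mem hx]
      exact hb j x hx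
    · rw [indicator_of_notMem hx, norm_zero]
      exact zero_le_one
  have hgv : ∀ j u, eVariationOn (fun v => g j (u, v)) (Icc (-1 : ℝ) 1) ≤ 1 := by
    intro j u
    by_cases hu : u ∈ Icc (-1 : ℝ) 1
    · have h1 : EqOn (fun v => g j (u, v)) (fun v => f j (u, v)) (Icc (-1 : ℝ) 1) := by
        intro v hv'
        rw [hg]
        simp only
        rw [indicator_of_mem (show (u, v) ∈ Icc (-1 : ℝ) 1 ×ˢ Icc (-1 : ℝ) 1 from ⟨hu, hv'⟩)]
      rw [eVariationOn.eq_of_eqOn h1]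
      exact hv j u hu
    · have h1 : EqOn (fun v => g j (u, v)) (fun _ => 0) (Icc (-1 : ℝ) 1) := by
        intro v _
        rw [hg]
        simp only
        rw [indicator_of_notMem]
        intro h2
        exact hu h2.1
      rw [eVariationOn.eq_of_eqOn h1, eVariationOn.constant_on]
      · exact zero_le
      · intro x hx y hy
        obtain ⟨_, _, rfl⟩ := hx
        obtain ⟨_, _, rfl⟩ := hy
        rfl
  have he : ∀ y : (Fin (m + 1) → ℝ) × ℝ, ext (fun ξ => ∏ j : Fin m, f j (ξ 0, ξ j.succ)) y =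
      Pool.Agent.H728R3.SR.ext (fun ξ => ∏ j : Fin m, g j (ξ 0, ξ j.succ)) y := by
    intro y
    unfold ext Pool.Agent.H728R3.SR.ext
    apply setIntegral_congr_fun measurableSet_Icc
    intro ξ hξ
    simp only
    congr 1
    apply Finset.prod_congr rfl
    intro j _
    rw [hg]
    simp only
    rw [indicator_of_mem (show (ξ 0, ξ j.succ) ∈ Icc (-1 : ℝ) 1 ×ˢ Icc (-1 : ℝ) 1 from
      ⟨⟨hξ.1 0, hξ.2 0⟩, ⟨hξ.1 j.succ, hξ.2 j.succ⟩⟩)]
  simp only [he]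
  exact hKK g hgm hgb hgv

end Pool.Agent.Results.MP_b7167f_an.BoundedVariationProducts
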