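import Mathlib
import Pool.Agent.H728R3.SR.F
set_option autoImplicit false

/-!
# The restriction conjecture for the paraboloid for semi-random functions

Let `d = m + 2 ≥ 3`, write `ξ = (ξ_0, ξ') ∈ [-1,1] × [-1,1]^m`, let `Q_k ⊆ [-1,1]^m` be any
axis-parallel boxes and `c_k` real numbers with `∑ c_k^2 1_{Q_k} ≤ 1`, and let `g_k` be any
measurable functions of one variable with `|g_k| ≤ 1`. Then the extension estimate of the
restriction conjecture holds for `f_ε(ξ) = ∑ ε_k c_k 1_{Q_k}(ξ') g_k(ξ_0)` on average over the signs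
`ε`, in the full range `q > 2d/(d-1)`, with a constant depending on `q` and `d` only.
-/

namespace Pool.Agent.Results.MP_b7167f_an.SemiRandom

open MeasureTheory Set Complex
open scoped ENNReal NNReal

/-- The extension operator of the truncated paraboloid in `ℝ^(n+1)`:
`Ef(x,t) = ∫_{[-1,1]^n} f(ξ) exp(2πi(ξ·x + |ξ|² t)) dξ`. -/
noncomputable def ext {n : ℕ} (f : (Fin n → ℝ) → ℂ) (y : (Fin n → ℝ) × ℝ) : ℂ :=
  ∫ ξ in Icc (fun _ : Fin n => (-1 : ℝ)) (fun _ => 1),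
    f ξ * cexp (2 * Real.pi * I * ((∑ j, ξ j * y.1 j + (∑ j, ξ j ^ 2) * y.2 : ℝ) : ℂ))

/-- The semi-random function
`f_ε(ξ) = ∑_k ε_k c_k 1_{Q_k}(ξ_1, ..., ξ_m) g_k(ξ_0)`, where `Q_k = ∏_j [a_{k,j}, b_{k,j}]` and
the sign `ε_k` is `1` if `ε k = true` and `-1` otherwise. -/
noncomputable def semi {m N : ℕ} (c : Fin N → ℝ) (a b : Fin N → Fin m → ℝ) (g : Fin N → ℝ → ℂ)
    (ε : Fin N → Bool) (ξ : Fin (m + 1) → ℝ) : ℂ :=
  ∑ k, (if ε k then 1 else -1) * ((c k : ℂ) *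
    (Icc (a k) (b k)).indicator (fun _ => g k (ξ 0)) (fun j : Fin m => ξ j.succ))

open Pool.Agent.H728R3.SR in
lemma ext_semi {m N : ℕ} (c : Fin N → ℝ) (a b : Fin N → Fin m → ℝ) (g : Fin N → ℝ → ℂ)
    (hm : ∀ k, Measurable (g k)) (hb : ∀ k y, ‖g k y‖ ≤ 1) (ε : Fin N → Bool)
    (y : (Fin (m + 1) → ℝ) × ℝ) :
    ext (semi c a b g ε) y =
      ∑ k, (sg (ε k) : ℂ) * ((c k : ℂ) * Pool.Agent.H728R3.SR.ext (pc (a k) (b k) (g k)) y) := by
  unfold ext Pool.Agent.H728R3.SR.ext semi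
  simp only [← integral_const_mul]
  have hcube : volume (Icc (fun _ : Fin (m + 1) => (-1 : ℝ)) (fun _ => 1)) < ⊤ := by
    rw [Real.volume_Icc_pi]
    exact ENNReal.prod_lt_top fun _ _ => ENNReal.ofReal_lt_top
  have hfin : IsFiniteMeasure ((volume : Measure (Fin (m + 1) → ℝ)).restrict
      (Icc (fun _ : Fin (m + 1) => (-1 : ℝ)) (fun _ => 1))) :=
    ⟨by rw [Measure.restrict_apply_univ]; exact hcube⟩
  rw [← integral_finsetSum]
  · apply integral_congr_ae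
    refine ae_of_all _ fun ξ => ?_
    simp only [Finset.sum_mul]
    apply Finset.sum_congr rfl
    intro k _
    have h1 : ((if ε k then 1 else -1 : ℂ)) = (sg (ε k) : ℂ) := by
      unfold sg
      split_ifs <;> simp
    rw [h1]
    unfold pc
    simp only [Fin.tail_def]
    ring
  · intro k _
    apply Integrable.const_mul
    apply Integrable.const_mul
    have hpm : Measurable (pc (a k) (b k) (g k)) := by
      have h1 : Measurable fun ξ : Fin (m + 1) → ℝ => (Fin.tail ξ : Fin m → ℝ) := by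
        rw [measurable_pi_iff]
        intro j
        exact measurable_pi_apply _
      have h2 : pc (a k) (b k) (g k) = ((fun ξ : Fin (m + 1) → ℝ => (Fin.tail ξ : Fin m → ℝ)) ⁻¹'
          (Icc (a k) (b k))).indicator (fun ξ => g k (ξ 0)) := by
        ext ξ
        unfold pc
        by_cases h : Fin.tail ξ ∈ Icc (a k) (b k)
        · rw [indicator_of_mem h, indicator_of_mem (by exact h)]
        · rw [indicator_of_notMem h, indicator_of_notMem (by exact h)]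
      rw [h2]
      exact ((hm k).comp (measurable_pi_apply 0)).indicator (h1 measurableSet_Icc)
    have hem : Measurable fun ξ : Fin (m + 1) → ℝ =>
        cexp (2 * Real.pi * I * ((∑ j, ξ j * y.1 j + (∑ j, ξ j ^ 2) * y.2 : ℝ) : ℂ)) := by
      apply Continuous.measurable
      fun_prop
    refine Integrable.of_bound (hpm.mul hem).aestronglyMeasurable 1 (ae_of_all _ fun ξ => ?_)
    rw [norm_mul]
    have h3 : ‖cexp (2 * Real.pi * I * ((∑ j, ξ j * y.1 j + (∑ j, ξ j ^ 2) * y.2 : ℝ) : ℂ))‖ = 1 := by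
      have : (2 * Real.pi * I * ((∑ j, ξ j * y.1 j + (∑ j, ξ j ^ 2) * y.2 : ℝ) : ℂ)) =
          ((2 * Real.pi * (∑ j, ξ j * y.1 j + (∑ j, ξ j ^ 2) * y.2) : ℝ) : ℂ) * I := by
        push_cast
        ring
      rw [this, Complex.norm_exp_ofReal_mul_I]
    rw [h3, mul_one]
    unfold pc
    exact (norm_indicator_le_norm_self _ _).trans (hb k _)

lemma avg_le {Y : Type*} [MeasurableSpace Y] (μ : Measure Y) (N : ℕ) (Z : Fin N → Y → ℂ)
    (hZ : ∀ k, Measurable (Z k)) (q : ℝ) (hq : 0 < q) :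
    ((2 : ℝ≥0∞) ^ N)⁻¹ * ∑ ε : Fin N → Bool,
        ∫⁻ y, ‖∑ k, (Pool.Agent.H728R3.SR.sg (ε k) : ℂ) * Z k y‖ₑ ^ q ∂μ ≤
      ENNReal.ofReal (Pool.Agent.H728R3.SR.K1 q) * ∫⁻ y, (∑ k, ‖Z k y‖ₑ ^ 2) ^ (q / 2) ∂μ := by
  rw [← lintegral_finsetSum]
  · have h1 : ∫⁻ y, ∑ ε : Fin N → Bool,
        ‖∑ k, (Pool.Agent.H728R3.SR.sg (ε k) : ℂ) * Z k y‖ₑ ^ q ∂μ ≤
        ∫⁻ y, 2 ^ N * (ENNReal.ofReal (Pool.Agent.H728R3.SR.K1 q) *
          (∑ k, ‖Z k y‖ₑ ^ 2) ^ (q / 2)) ∂μ := by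
      apply lintegral_mono
      intro y
      have := Pool.Agent.H728R3.SR.khinchine q hq (fun k => Z k y)
      rw [Fintype.card_fin] at this
      exact this
    rw [lintegral_const_mul' _ _ (by simp), lintegral_const_mul' _ _ ENNReal.ofReal_ne_top] at h1
    calc _ ≤ ((2 : ℝ≥0∞) ^ N)⁻¹ * (2 ^ N * (ENNReal.ofReal (Pool.Agent.H728R3.SR.K1 q) *
          ∫⁻ y, (∑ k, ‖Z k y‖ₑ ^ 2) ^ (q / 2) ∂μ)) := mul_le_mul_right h1 _
      _ = _ := by
          rw [← mul_assoc, ENNReal.inv_mul_cancel (by simp) (by simp), one_mul]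
  · intro ε _
    apply Measurable.pow_const
    apply Measurable.enorm
    exact Finset.measurable_sum _ fun k _ => (hZ k).const_mul _

/-- **The restriction conjecture for semi-random functions.** Let `m ≥ 1`, `d = m + 2` and
`q > 2d/(d-1)`. There is `C` such that for all `N`, all boxes `Q_k = ∏ [a_{k,j}, b_{k,j}]` in
`[-1,1]^m`, all real `c_k` with `∑ c_k² 1_{Q_k} ≤ 1` almost everywhere, and all measurable `g_k`
with `|g_k| ≤ 1`, the average over all `2^N` choices of signs of `‖E f_ε‖_{L^q(ℝ^d)}^q` is at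
most `C`. -/
theorem result (m : ℕ) (hm : 1 ≤ m) (q : ℝ) (hq : 2 * ((m : ℝ) + 2) / (m + 1) < q) :
    ∃ C : ℝ≥0, ∀ (N : ℕ) (c : Fin N → ℝ) (a b : Fin N → Fin m → ℝ) (g : Fin N → ℝ → ℂ),
      (∀ k j, -1 ≤ a k j ∧ a k j ≤ b k j ∧ b k j ≤ 1) →
      (∀ᵐ ξ : Fin m → ℝ, ∑ k, c k ^ 2 * (Icc (a k) (b k)).indicator (fun _ => (1 : ℝ)) ξ ≤ 1) →
      (∀ k, Measurable (g k)) → (∀ k y, ‖g k y‖ ≤ 1) →
        ((2 : ℝ≥0∞) ^ N)⁻¹ * ∑ ε : Fin N → Bool,
          ∫⁻ y : (Fin (m + 1) → ℝ) × ℝ, ‖ext (semi c a b g ε) y‖ₑ ^ q ≤ C := by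
  have hm' : (1 : ℝ) ≤ m := by exact_mod_cast hm
  obtain ⟨h2, -⟩ := Pool.Agent.H728R3.SR.consts2 m q hm' hq
  obtain ⟨C, hC, hCC⟩ := Pool.Agent.H728R3.SR.square m hm q hq
  refine ⟨(ENNReal.ofReal (Pool.Agent.H728R3.SR.K1 q) * C).toNNReal, ?_⟩
  intro N c a b g hab hov hgm hgb
  rw [ENNReal.coe_toNNReal (ENNReal.mul_ne_top ENNReal.ofReal_ne_top hC)]
  have hadm : Pool.Agent.H728R3.SR.Adm c a b g :=
    ⟨fun k j => (hab k j).1, fun k j => (hab k j).2.1, fun k j => (hab k j).2.2, hgm, hgb, hov⟩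
  have h1 := hCC (Fin N) c a b g hadm
  have hmz : ∀ k, Measurable fun y : (Fin (m + 1) → ℝ) × ℝ =>
      (c k : ℂ) * Pool.Agent.H728R3.SR.ext (Pool.Agent.H728R3.SR.pc (a k) (b k) (g k)) y := by
    intro k
    exact (Pool.Agent.H728R3.SR.ext_pc_meas (a k) (b k) (g k) (hgm k)).const_mul _
  simp only [ext_semi c a b g hgm hgb]
  exact (avg_le volume N _ hmz q (by linarith)).trans (mul_le_mul_right h1 _)

end Pool.Agent.Results.MP_b7167f_an.SemiRandom
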